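import Pool.Agent.L0h15.RJ.Count

/-!
# Large Satake parameters are rare

Let `π` be a spherical cusp form on `PGL_n` (or any unitary cuspidal automorphic representation of `GL_n`
over `ℚ`; the parameters at the finitely many ramified primes can be replaced by `1, …, 1`), with Satake
parameters `α_{1,p}, …, α_{n,p}` and `θ_p = max_i |log_p |α_{i,p}||`. The Ramanujan conjecture at `p` is
`θ_p = 0`; the bound of Luo, Rudnick and Sarnak is `θ_p ≤ 1/2 - 1/(n² + 1)`.

Only two facts are used: the parameters are closed under `z ↦ 1 / conj z` (local unitarity), and the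
Rankin-Selberg series of `π` and its contragredient converges absolutely for `s > 1` (Jacquet and
Shalika). The trace `∑ α_{i,p}` can be small although `θ_p` is large if `n ≥ 4`, so the
convergence does not bound `θ_p` on average directly.

Theorem. Let `m = ⌊n / 2⌋`.

(1) For `0 < t ≤ 1/2` and `η > 0` there are at most `C x ^ (m (1 - 2 t) + η)` primes `p ≤ x` with `θ_p ≥ t`.

(2) For every `t > 1/2 - 1/(2 m)` there is `δ > 0` such that `θ_p < t` for all primes `p ≤ x` but at most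
`C x ^ (1 - δ)`. So for almost all primes the exponent is at most `1/2 - 1/(2 m) + ε`: it is at most
`ε` for `n = 2, 3`, `1/4 + ε` for `n = 4, 5`, `1/3 + ε` for `n = 6, 7`.

(3) If the Rankin-Selberg series of the exterior powers of the degrees `2 ≤ j ≤ m` converge for `s > 1`, at
most `C x ^ (1 - 2 t + η)` primes `p ≤ x` have `θ_p ≥ t`, for all `0 < t ≤ 1/2`. The condition is empty for
`n = 2, 3`, and it is known for `n = 4` (Kim: the exterior square is automorphic on `GL_6`). So for `n = 4`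
the forms are tempered up to `ε` at almost all primes.

(4) For `n = 2`: if the Rankin-Selberg series of the `k`-th symmetric power converges for `s > 1`, at
most `C x ^ (1 - 2 k t + η)` primes have `θ_p ≥ t`, for `0 < t ≤ 1/(2 k)`. This is known for `k = 4` (Kim).

The proof. By Newton's identities and the symmetry `z ↦ 1 / conj z`, at a large prime with `θ_p ≥ t` one of
the first `m` power sums `∑_i α_{i,p} ^ k` has the size `p ^ (k θ_p)` (`exists_psum`), and one of the first `m`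
elementary symmetric functions has at least the size `p ^ θ_p` (`exists_esym'`).
-/

set_option autoImplicit false

namespace Pool.Agent.L0h15.Old.RareLargeParameters

open Pool.Agent.L0h15.RJ

theorem result {n : ℕ} (hn : 2 ≤ n) (α : ℕ → Fin n → ℂ) (hU : ∀ p : ℕ, p.Prime → Unitary (α p))
    (hRS : RankinSelberg α) :
    -- (1)
    (∀ t : ℝ, 0 < t → t ≤ 1 / 2 →
      Rare {p | t ≤ theta α p} (((n / 2 : ℕ) : ℝ) * (1 - 2 * t))) ∧
    -- (2)
    (∀ t : ℝ, 1 / 2 - 1 / (2 * ((n / 2 : ℕ) : ℝ)) < t →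
      ∃ δ : ℝ, 0 < δ ∧ ∃ C : ℝ, ∀ x : ℝ, 1 ≤ x →
        (primeCount {p | t ≤ theta α p} x : ℝ) ≤ C * x ^ (1 - δ)) ∧
    -- (3)
    ((∀ j : ℕ, 2 ≤ j → j ≤ n / 2 → Converges fun p => esym (α p) j) →
      ∀ t : ℝ, 0 < t → t ≤ 1 / 2 → Rare {p | t ≤ theta α p} (1 - 2 * t)) ∧
    -- (4)
    (∀ β : ℕ → Fin 2 → ℂ, (∀ p : ℕ, p.Prime → Unitary (β p)) → ∀ k : ℕ, 1 ≤ k →
      (Converges fun p => symPower (β p) k) →
      ∀ t : ℝ, 0 < t → t ≤ 1 / (2 * k) → Rare {p | t ≤ theta β p} (1 - 2 * k * t)) := by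
  refine ⟨fun t ht0 ht η hη => rare hn hU hRS ht0 ht hη, fun t ht => ?_,
    fun hE t ht0 ht η hη => rare_exterior hn hU (fun j hj1 hj2 => ?_) ht0 ht hη,
    fun β hβ k hk hS t ht0 ht η hη => rare_symPower hβ hk hS ht0 ht hη⟩
  · have hm1 : 1 ≤ n / 2 := by omega
    have hm1' : (1 : ℝ) ≤ ((n / 2 : ℕ) : ℝ) := by exact_mod_cast hm1
    have hm0 : (0 : ℝ) < ((n / 2 : ℕ) : ℝ) := by linarith
    have ht0 : 0 < t := by
      have h1 : 1 / (2 * ((n / 2 : ℕ) : ℝ)) ≤ 1 / 2 := by
        rw [div_le_div_iff₀ (by positivity) (by norm_num)]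
        linarith
      linarith
    -- replace `t` by a number which is at most `1/2`
    have key : ∀ u : ℝ, 0 < u → u ≤ 1 / 2 → 1 / 2 - 1 / (2 * ((n / 2 : ℕ) : ℝ)) < u →
        ∃ δ : ℝ, 0 < δ ∧ ∃ C : ℝ, ∀ x : ℝ, 1 ≤ x →
          (primeCount {p | u ≤ theta α p} x : ℝ) ≤ C * x ^ (1 - δ) := by
      intro u hu0 hu hu2
      have h1 : ((n / 2 : ℕ) : ℝ) * (1 - 2 * u) < 1 := by
        have h2 : 1 - 2 * u < 1 / ((n / 2 : ℕ) : ℝ) := by
          have h3 : 1 / (2 * ((n / 2 : ℕ) : ℝ)) = 1 / ((n / 2 : ℕ) : ℝ) / 2 := by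
            rw [mul_comm, ← div_div]
          rw [h3] at hu2
          linarith
        have h4 := mul_lt_mul_of_pos_left h2 hm0
        rwa [mul_one_div, div_self hm0.ne'] at h4
      refine ⟨(1 - ((n / 2 : ℕ) : ℝ) * (1 - 2 * u)) / 2, by linarith, ?_⟩
      obtain ⟨C, hC⟩ := rare hn hU hRS hu0 hu
        (η := (1 - ((n / 2 : ℕ) : ℝ) * (1 - 2 * u)) / 2) (by linarith)
      refine ⟨C, fun x hx => ?_⟩
      have h5 := hC x hx
      rwa [show ((n / 2 : ℕ) : ℝ) * (1 - 2 * u) + (1 - ((n / 2 : ℕ) : ℝ) * (1 - 2 * u)) / 2 =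
        1 - (1 - ((n / 2 : ℕ) : ℝ) * (1 - 2 * u)) / 2 by ring] at h5
    rcases le_or_gt t (1 / 2) with h | h
    · exact key t ht0 h ht
    · obtain ⟨δ, hδ, C, hC⟩ := key (1 / 2) (by norm_num) le_rfl (by
        have : 0 < 1 / (2 * ((n / 2 : ℕ) : ℝ)) := by positivity
        linarith)
      refine ⟨δ, hδ, C, fun x hx => le_trans ?_ (hC x hx)⟩
      have hsub : ∀ p : ℕ, p ∈ {p | t ≤ theta α p} → p ∈ {p | 1 / 2 ≤ theta α p} :=
        fun p hp => le_trans h.le hp
      have hfin : Finite {p : ℕ // p.Prime ∧ (p : ℝ) ≤ x ∧ p ∈ {p | 1 / 2 ≤ theta α p}} := by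
        refine Set.Finite.to_subtype ((Set.finite_Iic ⌊x⌋₊).subset fun p hp => ?_)
        exact Nat.le_floor hp.2.1
      unfold primeCount
      exact_mod_cast Nat.card_le_card_of_injective
        (fun p : {p : ℕ // p.Prime ∧ (p : ℝ) ≤ x ∧ p ∈ {p | t ≤ theta α p}} =>
          (⟨p.1, p.2.1, p.2.2.1, hsub _ p.2.2.2⟩ :
            {p : ℕ // p.Prime ∧ (p : ℝ) ≤ x ∧ p ∈ {p | 1 / 2 ≤ theta α p}}))
        (fun a b hab => Subtype.ext (by
          have h9 := congrArg Subtype.val hab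
          exact h9))
  · rcases Nat.lt_or_ge j 2 with h | h
    · have : j = 1 := by omega
      subst this
      exact converges_one hRS
    · exact hE j h hj2

end Pool.Agent.L0h15.Old.RareLargeParameters
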